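import Pool.Agent.Helper85.REC.Stmts8

/-!
# REC.ST_TRP: polynomial identities between coefficients of characteristic polynomials   [helper60]
-/

set_option autoImplicit false

open scoped Classical
open NumberField

namespace Pool.Agent.Helper60.REC8

open REC MU

/-- open normal subgroups of the absolute Galois group -/
lemma exists_openNormal (F : Type) [Field F] [NumberField F] (U : Set (Gal F)) (hU : IsOpen U)
    (h1 : (1 : Gal F) ∈ U) : ∃ Y : Subgroup (Gal F), Y.Normal ∧ IsOpen (Y : Set (Gal F)) ∧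
      (Y : Set (Gal F)) ⊆ U := by
  obtain ⟨H, hH⟩ := ProfiniteGrp.exist_openNormalSubgroup_sub_open_nhds_of_one hU h1
  exact ⟨H.toSubgroup, H.isNormal', H.isOpen', hH⟩

lemma continuous_coeff {X : Type} [TopologicalSpace X] {n l : ℕ} [Fact l.Prime]
    (f : X → Matrix (Fin n) (Fin n) ℤ_[l]) (hf : Continuous f) (i : ℕ) :
    Continuous fun x => (f x).charpoly.coeff i := by
  have h1 : ∀ x, (f x).charpoly.coeff i =
      MvPolynomial.eval (fun ij : Fin n × Fin n => f x ij.1 ij.2)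
        ((Matrix.charpoly.univ ℤ_[l] (Fin n)).coeff i) := by
    intro x
    have h2 := Matrix.charpoly.univ_coeff_eval₂Hom (n := Fin n) (RingHom.id ℤ_[l])
      (fun ij : Fin n × Fin n => f x ij.1 ij.2) i
    exact h2.symm
  simp_rw [h1]
  refine (MvPolynomial.continuous_eval _).comp ?_
  refine continuous_pi fun ij => ?_
  exact (continuous_apply_apply ij.1 ij.2).comp hf

lemma continuous_aeval {X : Type} [TopologicalSpace X] {l : ℕ} [Fact l.Prime]
    (f : X → ℕ → ℤ_[l]) (hf : ∀ i, Continuous fun x => f x i) (Q : MvPolynomial ℕ ℤ) :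
    Continuous fun x => MvPolynomial.aeval (f x) Q := by
  have h1 : ∀ x, MvPolynomial.aeval (f x) Q =
      MvPolynomial.eval (f x) (MvPolynomial.map (algebraMap ℤ ℤ_[l]) Q) := by
    intro x
    rw [MvPolynomial.eval_map, MvPolynomial.aeval_def]
  simp_rw [h1]
  exact (MvPolynomial.continuous_eval _).comp (continuous_pi hf)

theorem st_TRP (hFRB : ST_FRB) : ST_TRP := by
  intro F _ _ S hS n w h M U hU Q l₀ l _ _ hl₀ σ₀ hσ₀
  by_contra hne
  set f : Gal F → ℤ_[l] := fun σ => MvPolynomial.aeval (fun i =>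
    ((M.ρ l σ : Matrix.GeneralLinearGroup (Fin n) ℤ_[l]) :
        Matrix (Fin n) (Fin n) ℤ_[l]).charpoly.coeff i) Q with hf
  have hcont : Continuous f := by
    refine continuous_aeval _ (fun i => ?_) Q
    refine continuous_coeff _ ?_ i
    exact Units.continuous_val.comp (M.continuous l)
  set V : Set (Gal F) := (fun σ => σ₀ * σ) ⁻¹' (U ∩ {σ | f σ ≠ 0}) with hV
  have hVo : IsOpen V := by
    refine IsOpen.preimage (continuous_const.mul continuous_id) ?_
    exact hU.inter (isOpen_ne_fun hcont continuous_const)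
  have hV1 : (1 : Gal F) ∈ V := by
    rw [hV, Set.mem_preimage, mul_one]
    exact ⟨hσ₀, hne⟩
  obtain ⟨Y, hYn, hYo, hYV⟩ := exists_openNormal F V hVo hV1
  obtain ⟨p, 𝔓, k, φ, hp, hpS, hover, hk, hcong, hφ⟩ := hFRB F Y hYn hYo (insert l (insert l₀ S)) σ₀⁻¹
  rw [inv_inv] at hφ
  simp only [Finset.mem_insert, not_or] at hpS
  have h1 : σ₀⁻¹ * φ⁻¹ ∈ Y := by
    have h2 : φ⁻¹ * σ₀⁻¹ ∈ Y := by
      have := Y.inv_mem hφ
      rwa [mul_inv_rev] at this
    exact (hYn.mem_comm_iff).mp h2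
  have h2 := hYV h1
  rw [hV, Set.mem_preimage] at h2
  have h3 : σ₀ * (σ₀⁻¹ * φ⁻¹) = φ⁻¹ := by group
  rw [h3] at h2
  obtain ⟨P, _, hP⟩ := M.pure p hp hpS.2.2 𝔓 hover k φ hk hcong
  have e0 := hl₀ _ h2.1
  rw [hP l₀ (Ne.symm hpS.2.1)] at e0
  have e1 : f φ⁻¹ ≠ 0 := h2.2
  apply e1
  simp only [hf]
  rw [hP l (Ne.symm hpS.1)]
  have key : ∀ (l' : ℕ) [Fact l'.Prime], MvPolynomial.aeval
      (fun i => (P.map (Int.castRingHom ℤ_[l'])).coeff i) Q =
      ((MvPolynomial.eval (fun i => P.coeff i) Q : ℤ) : ℤ_[l']) := by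
    intro l' _
    have h4 : (fun i => (P.map (Int.castRingHom ℤ_[l'])).coeff i) =
        fun i => Int.castRingHom ℤ_[l'] (P.coeff i) := by
      funext i
      rw [Polynomial.coeff_map]
    rw [h4]
    have h5 := MvPolynomial.map_aeval (fun i => P.coeff i) (Int.castRingHom ℤ_[l']) Q
    rw [MvPolynomial.aeval_def, MvPolynomial.eval]
    rw [← MvPolynomial.coe_eval₂Hom]
    have h6 : (MvPolynomial.eval₂Hom (algebraMap ℤ ℤ_[l']) fun i =>
        Int.castRingHom ℤ_[l'] (P.coeff i)) = (Int.castRingHom ℤ_[l']).comp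
        (MvPolynomial.eval₂Hom (RingHom.id ℤ) fun i => P.coeff i) := by
      apply MvPolynomial.ringHom_ext
      · intro r
        simp
      · intro i
        simp
    rw [h6]
    rfl
  rw [key] at e0 ⊢
  have h7 : (MvPolynomial.eval (fun i => P.coeff i) Q : ℤ) = 0 := by exact_mod_cast e0
  rw [h7, Int.cast_zero]

end Pool.Agent.Helper60.REC8
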