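import Pool.Agent.Helper85.REC.Stmts7

/-!
# REC.ST_BCT: primes, Frobenius elements and base change   [helper60]
-/

set_option autoImplicit false

open scoped Classical
open NumberField

namespace Pool.Agent.Helper60.REC7

open REC
open Pool.Agent.Helper13.ZL (Pl q)
open MU (Gal Zb Over CongPow)

variable {F K : Type} [Field F] [NumberField F] [Field K] [NumberField K] [Algebra F K]

omit [NumberField F] [NumberField K] [Algebra F K] in
lemma mem_zb (j : AlgebraicClosure F ≃+* AlgebraicClosure K) (x : Zb F) :
    j (x : AlgebraicClosure F) ∈ integralClosure ℤ (AlgebraicClosure K) := by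
  have hx : IsIntegral ℤ (x : AlgebraicClosure F) := x.2
  exact hx.map (j : AlgebraicClosure F →+* AlgebraicClosure K).toIntAlgHom

/-- the map induced by `j` on the integers -/
noncomputable def phi (j : AlgebraicClosure F ≃+* AlgebraicClosure K) : Zb F →+* Zb K :=
  RingHom.codRestrict ((j : AlgebraicClosure F →+* AlgebraicClosure K).comp
    (algebraMap (Zb F) (AlgebraicClosure F))) (integralClosure ℤ (AlgebraicClosure K))
    (fun x => mem_zb j x)

lemma phi_coe (j : AlgebraicClosure F ≃+* AlgebraicClosure K) (x : Zb F) :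
    ((phi j x : Zb K) : AlgebraicClosure K) = j (x : AlgebraicClosure F) := rfl

lemma phi_surj (j : AlgebraicClosure F ≃+* AlgebraicClosure K) (y : Zb K) :
    ∃ x : Zb F, phi j x = y := by
  have hy : IsIntegral ℤ (y : AlgebraicClosure K) := y.2
  have h2 : IsIntegral ℤ (j.symm (y : AlgebraicClosure K)) :=
    hy.map (j.symm : AlgebraicClosure K →+* AlgebraicClosure F).toIntAlgHom
  refine ⟨⟨j.symm (y : AlgebraicClosure K), h2⟩, Subtype.ext ?_⟩
  rw [phi_coe]
  exact j.apply_symm_apply _

theorem st_BCT : ST_BCT := by
  intro F K _ _ _ _ _ j r hbc 𝔔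
  refine ⟨𝔔.comap (phi j), ?_, ?_, ?_⟩
  · intro x y hy
    have : y = phi j x := Subtype.ext (by rw [phi_coe]; exact hy)
    rw [this, Ideal.mem_comap]
  · intro a σ
    constructor
    · intro h x y hy
      change Zb F at x y
      have h1 : phi j y - phi j x ^ a ∈ 𝔔 := by
        refine h (phi j x) (phi j y) ?_
        rw [phi_coe, phi_coe]
        erw [hy]
        exact hbc.act σ _
      have h2 : phi j (y - x ^ a) = phi j y - phi j x ^ a := by
        rw [map_sub, map_pow]
      rw [← h2] at h1
      exact h1
    · intro h x y hy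
      obtain ⟨x', rfl⟩ := phi_surj j x
      obtain ⟨y', rfl⟩ := phi_surj j y
      have h1 : (y' : AlgebraicClosure F) = (r σ) (x' : AlgebraicClosure F) := by
        apply j.injective
        rw [hbc.act]
        rw [phi_coe, phi_coe] at hy
        exact hy
      have h2 : phi j (y' - x' ^ a) ∈ 𝔔 := h x' y' h1
      rw [map_sub, map_pow] at h2
      exact h2
  · intro v w hvw hw
    refine ⟨?_, ?_⟩
    · have := hw.1
      exact Ideal.IsPrime.comap _
    · intro x y hy
      rw [Ideal.mem_comap]
      have h1 : ((phi j y : Zb K) : AlgebraicClosure K) =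
          algebraMap K (AlgebraicClosure K) ((algebraMap (𝓞 F) (𝓞 K) x : 𝓞 K) : K) := by
        rw [phi_coe, hy, hbc.base]
        rfl
      rw [hw.2 (algebraMap (𝓞 F) (𝓞 K) x) (phi j y) h1]
      exact hvw x

end Pool.Agent.Helper60.REC7
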