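import Pool.Agent.Helper85.REC.Stmts8

/-!
# REC.ST_CL2: Clifford's theorem for an invariant line in rank two   [helper60]
-/

set_option autoImplicit false

open scoped Classical
open Matrix

namespace Pool.Agent.Helper60.REC8

open REC MU

theorem st_CL2 : ST_CL2 := by
  intro G K _ _ r H hH hirr B A hsub
  obtain ⟨⟨C, hC⟩, hA⟩ := hsub
  have hB : B 0 0 ≠ 0 ∨ B 1 0 ≠ 0 := by
    by_contra hcon
    push Not at hcon
    have h1 : (C * B) 0 0 = 1 := by rw [hC]; rfl
    rw [Matrix.mul_apply, Fin.sum_univ_two, hcon.1, hcon.2, mul_zero, mul_zero, add_zero] at h1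
    exact zero_ne_one h1
  -- an element moving the line
  obtain ⟨g₀, hg₀⟩ : ∃ g₀ : G, ∀ c : K, ¬ ∀ i, (r g₀ * B) i 0 = c * B i 0 := by
    by_contra hcon
    push Not at hcon
    choose c hc using hcon
    have h1 : IsSub r B (fun g => !![c g]) := by
      refine ⟨⟨C, hC⟩, fun g => ?_⟩
      ext i j
      have hj : j = 0 := Subsingleton.elim _ _
      rw [hj, hc g i, Matrix.mul_apply]
      simp [mul_comm]
    rcases hirr 1 B _ h1 with h | h <;> omega
  set P : Matrix (Fin 2) (Fin 2) K := Matrix.of fun i j => if j = 0 then B i 0 else (r g₀ * B) i 0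
    with hP
  have hP0 : ∀ i, P i 0 = B i 0 := fun i => by simp [hP]
  have hP1 : ∀ i, P i 1 = (r g₀ * B) i 0 := fun i => by simp [hP]
  have hdet : P.det ≠ 0 := by
    intro hd
    rw [Matrix.det_fin_two, hP0, hP0, hP1, hP1] at hd
    rcases hB with h | h
    · refine hg₀ ((r g₀ * B) 0 0 / B 0 0) ?_
      intro i
      fin_cases i
      · simp only [Fin.zero_eta]
        rw [div_mul_cancel₀ _ h]
      · simp only [Fin.mk_one]
        field_simp
        linear_combination hd
    · refine hg₀ ((r g₀ * B) 1 0 / B 1 0) ?_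
      intro i
      fin_cases i
      · simp only [Fin.zero_eta]
        field_simp
        linear_combination -hd
      · simp only [Fin.mk_one]
        rw [div_mul_cancel₀ _ h]
  have hu : IsUnit P.det := isUnit_iff_ne_zero.mpr hdet
  set N : G → Matrix (Fin 2) (Fin 2) K := fun g => P⁻¹ * r g * P with hN
  have hNmul : ∀ g g', N (g * g') = N g * N g' := by
    intro g g'
    simp only [hN]
    rw [map_mul]
    have : P⁻¹ * r g * P * (P⁻¹ * r g' * P) = P⁻¹ * r g * (P * P⁻¹) * r g' * P := by
      simp only [Matrix.mul_assoc]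
    rw [this, Matrix.mul_nonsing_inv _ hu, Matrix.mul_one, Matrix.mul_assoc P⁻¹ (r g)]
  have hN1 : N 1 = 1 := by
    simp only [hN]
    rw [map_one, Matrix.mul_one, Matrix.nonsing_inv_mul _ hu]
  have htr : ∀ g, (N g).trace = (r g).trace := by
    intro g
    simp only [hN]
    rw [Matrix.mul_assoc, Matrix.trace_mul_comm, Matrix.mul_assoc, Matrix.mul_nonsing_inv _ hu,
      Matrix.mul_one]
  have hdt : ∀ g, (N g).det = (r g).det := by
    intro g
    simp only [hN]
    rw [Matrix.det_mul, Matrix.det_mul, mul_right_comm, ← Matrix.det_mul, Matrix.nonsing_inv_mul _ hu,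
      Matrix.det_one, one_mul]
  have hinv : ∀ g, N g⁻¹ * N g = 1 := by
    intro g
    rw [← hNmul, inv_mul_cancel, hN1]
  have hdne : ∀ g, (N g).det ≠ 0 := by
    intro g h0
    have h1 := congrArg Matrix.det (hinv g)
    rw [Matrix.det_mul, h0, mul_zero, Matrix.det_one] at h1
    exact zero_ne_one h1
  -- the elements of `H` are diagonal
  have hdiag : ∀ h ∈ H, N h 1 0 = 0 ∧ N h 0 1 = 0 := by
    intro h hh
    have hh' : g₀⁻¹ * h * g₀ ∈ H := by
      have := hH.conj_mem h hh g₀⁻¹
      rwa [inv_inv] at this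
    have key : r h * P = P * Matrix.diagonal ![A ⟨h, hh⟩ 0 0, A ⟨_, hh'⟩ 0 0] := by
      ext i j
      rw [Matrix.mul_diagonal]
      fin_cases j
      · simp only [Fin.zero_eta, Matrix.cons_val_zero]
        rw [hP0]
        have h1 : (r h * P) i 0 = (r h * B) i 0 := by
          rw [Matrix.mul_apply, Matrix.mul_apply]
          exact Finset.sum_congr rfl fun k _ => by rw [hP0]
        have h2 : r h * B = B * A ⟨h, hh⟩ := hA ⟨h, hh⟩
        rw [h1, h2, Matrix.mul_apply]
        simp
      · simp only [Fin.mk_one, Matrix.cons_val_one]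
        rw [hP1]
        have h1 : (r h * P) i 1 = (r h * (r g₀ * B)) i 0 := by
          rw [Matrix.mul_apply, Matrix.mul_apply]
          exact Finset.sum_congr rfl fun k _ => by rw [hP1]
        have h2 : r (g₀⁻¹ * h * g₀) * B = B * A ⟨_, hh'⟩ := hA ⟨_, hh'⟩
        have h3 : r h * (r g₀ * B) = r g₀ * (r (g₀⁻¹ * h * g₀) * B) := by
          rw [← Matrix.mul_assoc, ← Matrix.mul_assoc, ← map_mul, ← map_mul]
          congr 2
          group
        rw [h1, h3, h2, ← Matrix.mul_assoc, Matrix.mul_apply]
        simp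
    have key2 : N h = Matrix.diagonal ![A ⟨h, hh⟩ 0 0, A ⟨_, hh'⟩ 0 0] := by
      simp only [hN]
      rw [Matrix.mul_assoc, key, ← Matrix.mul_assoc, Matrix.nonsing_inv_mul _ hu, Matrix.one_mul]
    rw [key2]
    constructor <;> simp
  have hg₀N : N g₀ 1 0 = 1 := by
    have h1 : N g₀ 1 0 = (P⁻¹ * (r g₀ * P)) 1 0 := by
      simp only [hN]
      rw [Matrix.mul_assoc]
    have h2 : (P⁻¹ * (r g₀ * P)) 1 0 = (P⁻¹ * P) 1 1 := by
      rw [Matrix.mul_apply, Matrix.mul_apply]
      refine Finset.sum_congr rfl fun k _ => ?_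
      have h3 : (r g₀ * P) k 0 = P k 1 := by
        rw [hP1, Matrix.mul_apply, Matrix.mul_apply]
        exact Finset.sum_congr rfl fun k _ => by rw [hP0]
      rw [h3]
    rw [h1, h2, Matrix.nonsing_inv_mul _ hu]
    simp
  by_cases hscal : ∀ h ∈ H, N h 0 0 = N h 1 1
  · right
    intro h hh
    obtain ⟨h1, h2⟩ := hdiag h hh
    rw [← htr, ← hdt, Matrix.trace_fin_two, Matrix.det_fin_two, h1, h2, hscal h hh]
    ring
  · left
    push Not at hscal
    obtain ⟨h₀, hh₀, hne⟩ := hscal
    obtain ⟨d1, d2⟩ := hdiag h₀ hh₀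
    have hz : ∀ g, (N g 0 0 = 0 ∨ N g 1 0 = 0) ∧ (N g 0 1 = 0 ∨ N g 1 1 = 0) := by
      intro g
      have hh' : g⁻¹ * h₀ * g ∈ H := by
        have := hH.conj_mem h₀ hh₀ g⁻¹
        rwa [inv_inv] at this
      obtain ⟨e1, e2⟩ := hdiag _ hh'
      have hcomm : N h₀ * N g = N g * N (g⁻¹ * h₀ * g) := by
        rw [← hNmul, ← hNmul]
        congr 1
        group
      have c00 := congrFun (congrFun hcomm 0) 0
      have c10 := congrFun (congrFun hcomm 1) 0
      have c01 := congrFun (congrFun hcomm 0) 1
      have c11 := congrFun (congrFun hcomm 1) 1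
      rw [Matrix.mul_apply, Matrix.mul_apply, Fin.sum_univ_two, Fin.sum_univ_two, e1, d2] at c00
      rw [Matrix.mul_apply, Matrix.mul_apply, Fin.sum_univ_two, Fin.sum_univ_two, d1, e1] at c10
      rw [Matrix.mul_apply, Matrix.mul_apply, Fin.sum_univ_two, Fin.sum_univ_two, d2, e2] at c01
      rw [Matrix.mul_apply, Matrix.mul_apply, Fin.sum_univ_two, Fin.sum_univ_two, d1, e2] at c11
      constructor
      · by_contra hcon
        push Not at hcon
        apply hne
        have i1 : N h₀ 0 0 = N (g⁻¹ * h₀ * g) 0 0 := by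
          apply mul_right_cancel₀ hcon.1
          linear_combination c00
        have i2 : N h₀ 1 1 = N (g⁻¹ * h₀ * g) 0 0 := by
          apply mul_right_cancel₀ hcon.2
          linear_combination c10
        rw [i1, i2]
      · by_contra hcon
        push Not at hcon
        apply hne
        have i1 : N h₀ 0 0 = N (g⁻¹ * h₀ * g) 1 1 := by
          apply mul_right_cancel₀ hcon.1
          linear_combination c01
        have i2 : N h₀ 1 1 = N (g⁻¹ * h₀ * g) 1 1 := by
          apply mul_right_cancel₀ hcon.2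
          linear_combination c11
        rw [i1, i2]
    let G' : Subgroup G :=
      { carrier := {g | N g 1 0 = 0}
        one_mem' := by
          show N 1 1 0 = 0
          rw [hN1]
          simp
        mul_mem' := by
          intro a b ha hb
          have ha' : N a 1 0 = 0 := ha
          have hb' : N b 1 0 = 0 := hb
          show N (a * b) 1 0 = 0
          rw [hNmul, Matrix.mul_apply, Fin.sum_univ_two, ha', hb', zero_mul, mul_zero, add_zero]
        inv_mem' := by
          intro a ha
          have ha' : N a 1 0 = 0 := ha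
          show N a⁻¹ 1 0 = 0
          have h1 := congrFun (congrFun (hinv a) 1) 0
          rw [Matrix.mul_apply, Fin.sum_univ_two, ha', mul_zero, add_zero] at h1
          have h2 := hdne a
          rw [Matrix.det_fin_two, ha', mul_zero, sub_zero] at h2
          have h3 : N a 0 0 ≠ 0 := left_ne_zero_of_mul h2
          have h4 : (1 : Matrix (Fin 2) (Fin 2) K) 1 0 = 0 := by simp
          rw [h4] at h1
          exact (mul_eq_zero.mp h1).resolve_right h3 }
    refine ⟨G', ?_, ?_, ?_⟩
    · intro h hh
      exact (hdiag h hh).1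
    · intro htop
      have h1 : g₀ ∈ G' := by rw [htop]; exact Subgroup.mem_top _
      have h2 : N g₀ 1 0 = 0 := h1
      rw [hg₀N] at h2
      exact one_ne_zero h2
    · intro g hg
      have h10 : N g 1 0 ≠ 0 := hg
      have h00 : N g 0 0 = 0 := (hz g).1.resolve_right h10
      have h11 : N g 1 1 = 0 := by
        rcases (hz g).2 with h | h
        · exfalso
          apply hdne g
          rw [Matrix.det_fin_two, h00, h]
          ring
        · exact h
      rw [← htr, Matrix.trace_fin_two, h00, h11, add_zero]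

end Pool.Agent.Helper60.REC8
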