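import Pool.Agent.Helper85.REC.Stmts7

/-!
# REC.ST_PRL: the power reciprocity law   [helper60]
-/

set_option autoImplicit false

open scoped Classical
open NumberField

namespace Pool.Agent.Helper60.REC7

open REC
open Pool.Agent.Helper13.ZL (Pl q)
open MU (Gal Zb Over CongPow)

variable {K : Type} [Field K] [NumberField K]

lemma totPos_pow {x : 𝓞 K} (hx : TotPos (x : K)) (m : ℕ) :
    TotPos ((x ^ m : 𝓞 K) : K) := by
  intro σ
  have h : σ ((x ^ m : 𝓞 K) : K) = σ (x : K) ^ m := by
    rw [← map_pow]; rfl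
  rw [h]
  exact pow_pos (hx σ) m

lemma totPos_mul {x y : 𝓞 K} (hx : TotPos (x : K)) (hy : TotPos (y : K)) :
    TotPos ((x * y : 𝓞 K) : K) := by
  intro σ
  have h : σ ((x * y : 𝓞 K) : K) = σ (x : K) * σ (y : K) := by
    rw [← map_mul]; rfl
  rw [h]
  exact mul_pos (hx σ) (hy σ)

omit [NumberField K] in
lemma sub_one_pow_mem {I : Ideal (𝓞 K)} {x : 𝓞 K} (hx : x - 1 ∈ I) (m : ℕ) : x ^ m - 1 ∈ I := by
  obtain ⟨c, hc⟩ := sub_dvd_pow_sub_pow x 1 m
  rw [one_pow] at hc
  rw [hc]
  exact I.mul_mem_right _ hx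

/-- the order of a unit modulo `g` -/
lemma exists_pow_sub_one {g b : 𝓞 K} (hg : g ≠ 0) (h : ∀ w : Pl K, g ∈ w.asIdeal → b ∉ w.asIdeal) :
    ∃ m : ℕ, b ^ (m + 1) - 1 ∈ Ideal.span {g} := by
  have hcop : IsCoprime (Ideal.span {b}) (Ideal.span {g} : Ideal (𝓞 K)) := by
    rw [Ideal.isCoprime_iff_sup_eq]
    by_contra hne
    obtain ⟨M, hM, hle⟩ := Ideal.exists_le_maximal _ hne
    have hgM : g ∈ M := hle (Ideal.mem_sup_right (Ideal.mem_span_singleton_self g))
    have hbM : b ∈ M := hle (Ideal.mem_sup_left (Ideal.mem_span_singleton_self b))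
    have hMne : M ≠ ⊥ := by
      rintro rfl
      exact hg (by simpa using hgM)
    exact h ⟨M, hM.isPrime, hMne⟩ hgM hbM
  rw [Ideal.isCoprime_span_singleton_iff] at hcop
  obtain ⟨u, v, huv⟩ := hcop
  have hI : (Ideal.span {g} : Ideal (𝓞 K)) ≠ ⊥ := by
    rw [Ne, Ideal.span_singleton_eq_bot]; exact hg
  have : Finite (𝓞 K ⧸ (Ideal.span {g} : Ideal (𝓞 K))) := Ideal.finiteQuotientOfFreeOfNeBot _ hI
  have hunit : IsUnit (Ideal.Quotient.mk (Ideal.span {g}) b) := by
    refine IsUnit.of_mul_eq_one (Ideal.Quotient.mk (Ideal.span {g}) u) ?_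
    rw [← map_mul, ← map_one (Ideal.Quotient.mk (Ideal.span {g})), Ideal.Quotient.eq]
    rw [Ideal.mem_span_singleton]
    refine ⟨-v, ?_⟩
    linear_combination huv
  obtain ⟨U, hU⟩ := hunit
  have : Finite (𝓞 K ⧸ (Ideal.span {g} : Ideal (𝓞 K)))ˣ := inferInstance
  have hord : 0 < orderOf U := orderOf_pos U
  refine ⟨orderOf U - 1, ?_⟩
  rw [Nat.sub_add_cancel hord, ← Ideal.Quotient.eq, map_pow, map_one, ← hU, ← Units.val_pow_eq_pow_val,
    pow_orderOf_eq_one, Units.val_one]

lemma ev_pow (hEV : ST_EV) {A : Type} [CommGroup A] (f : Pl K → A) {x : 𝓞 K} (hx : x ≠ 0) (m : ℕ) :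
    ev f (Ideal.span {x ^ m}) = ev f (Ideal.span {x}) ^ m := by
  obtain ⟨h1, h2, _⟩ := hEV K A
  induction m with
  | zero => rw [pow_zero, pow_zero, Ideal.span_singleton_one, h1]
  | succ m ih =>
    rw [pow_succ, ← Ideal.span_singleton_mul_span_singleton, h2, ih, pow_succ]
    · rw [Ne, Ideal.span_singleton_eq_bot]; exact pow_ne_zero m hx
    · rw [Ne, Ideal.span_singleton_eq_bot]; exact hx

theorem st_PRL (hPRK : ST_PRK) (hSYB : ST_SYB) (hEV : ST_EV) : ST_PRL := by
  intro K _ _ n hn α β hα hβ pα pβ cα cβ hcop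
  obtain ⟨_, _, s3, s4, _⟩ := hSYB K n hn
  obtain ⟨e1, e2, _, e4, e5, _⟩ := hEV K (𝓞 K)ˣ
  by_cases hg : α - β = 0
  · have : α = β := sub_eq_zero.mp hg
    rw [this]
  · have hbg : ∀ w : Pl K, α - β ∈ w.asIdeal → β ∉ w.asIdeal := by
      intro w hw hβw
      have : α ∈ w.asIdeal := by
        have := w.asIdeal.add_mem hw hβw
        rwa [sub_add_cancel] at this
      exact hcop w this hβw
    obtain ⟨m, hm⟩ := exists_pow_sub_one hg hbg
    have hspan : ∀ w : Pl K, ∀ x : 𝓞 K, Ideal.span {x} ≤ w.asIdeal → x ∈ w.asIdeal := by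
      intro w x hx
      exact hx (Ideal.mem_span_singleton_self x)
    -- first identity
    have i1 : ev (sy n α) (Ideal.span {β}) = ev (sy n (α - β)) (Ideal.span {β}) := by
      refine e5 _ _ _ ?_
      intro w hw
      refine s4 α (α - β) w ?_
      rw [sub_sub_cancel]
      exact hspan w β hw
    -- second identity
    have i2 : ev (sy n (α - β)) (Ideal.span {α}) = ev (sy n β) (Ideal.span {α}) := by
      have h1 : ev (sy n (α - β)) (Ideal.span {α}) =
          ev (fun w => sy n (-1) w * sy n β w) (Ideal.span {α}) := by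
        refine e5 _ _ _ ?_
        intro w hw
        have hαw := hspan w α hw
        have h2 : sy n (α - β) w = sy n ((-1) * β) w := by
          refine s4 _ _ w ?_
          have : α - β - (-1) * β = α := by ring
          rw [this]
          exact hαw
        rw [h2]
        refine s3 (-1) β w ?_ (hcop w hαw)
        intro hw1
        have h3 : (1 : 𝓞 K) ∈ w.asIdeal := by
          have := w.asIdeal.neg_mem hw1
          rwa [neg_neg] at this
        exact w.isPrime.ne_top ((Ideal.eq_top_iff_one _).mpr h3)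
      rw [h1, e4]
      have h4 : ev (sy n (-1)) (Ideal.span {α}) = 1 := by
        refine hPRK K n hn (-1) α (neg_ne_zero.mpr one_ne_zero) hα pα cα ?_
        intro w hw
        exfalso
        have h3 : (1 : 𝓞 K) ∈ w.asIdeal := by
          have := w.asIdeal.neg_mem hw
          rwa [neg_neg] at this
        exact w.isPrime.ne_top ((Ideal.eq_top_iff_one _).mpr h3)
      rw [h4, one_mul]
    -- the symbol of g
    have i3 : ev (sy n (α - β)) (Ideal.span {β}) ^ (m + 1) = 1 := by
      rw [← ev_pow hEV _ hβ]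
      refine hPRK K n hn (α - β) (β ^ (m + 1)) hg (pow_ne_zero _ hβ) (totPos_pow pβ _)
        (sub_one_pow_mem cβ _) ?_
      intro w hw
      exact (Ideal.span_singleton_le_iff_mem (I := w.asIdeal)).mpr hw hm
    have i4 : ev (sy n (α - β)) (Ideal.span {α}) *
        ev (sy n (α - β)) (Ideal.span {β}) ^ m = 1 := by
      rw [← ev_pow hEV _ hβ, ← e2]
      · rw [Ideal.span_singleton_mul_span_singleton]
        refine hPRK K n hn (α - β) (α * β ^ m) hg (mul_ne_zero hα (pow_ne_zero _ hβ))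
          (totPos_mul pα (totPos_pow pβ _)) ?_ ?_
        · have : α * β ^ m - 1 = (α - 1) * β ^ m + (β ^ m - 1) := by ring
          rw [this]
          exact Ideal.add_mem _ (Ideal.mul_mem_right _ _ cα) (sub_one_pow_mem cβ _)
        · intro w hw
          have : α * β ^ m - 1 = (α - β) * β ^ m + (β ^ (m + 1) - 1) := by ring
          rw [this]
          exact Ideal.add_mem _ (Ideal.mul_mem_right _ _ hw)
            ((Ideal.span_singleton_le_iff_mem (I := w.asIdeal)).mpr hw hm)
      · rw [Ne, Ideal.span_singleton_eq_bot]; exact hα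
      · rw [Ne, Ideal.span_singleton_eq_bot]; exact pow_ne_zero _ hβ
    have i5 : ev (sy n (α - β)) (Ideal.span {β}) = ev (sy n (α - β)) (Ideal.span {α}) := by
      rw [pow_succ'] at i3
      exact mul_right_cancel (i3.trans i4.symm)
    rw [i1, i5, i2]

end Pool.Agent.Helper60.REC7
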